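import Mathlib
import Pool.Agent.N290.RL.Stm

/-!
# Project RL, part AI: exact solutions
-/

set_option autoImplicit false

open Complex MeasureTheory Set Filter Topology
open scoped ENNReal Classical

namespace Pool.Agent.N727.RL

open Pool.Agent.N290.RJ Pool.Agent.N290.RK Pool.Agent.N290.RL

variable {d : ℕ}

/-- the weight outside the ball is replaced by zero -/
theorem meas_e {a : E d → ℝ} (ha : AW a) (C : ℝ) :
    Measurable (Set.piecewise (B d) (fun w => C * a w ^ 2) (fun _ => 0)) := by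
  have h1 : ContinuousOn a (B d) := ha.a1.continuousOn
  have h2 : ContinuousOn (fun w => C * a w ^ 2) (B d) := continuousOn_const.mul (h1.pow 2)
  exact ContinuousOn.measurable_piecewise h2 continuousOn_const B_meas

/-- solution for a fixed radius -/
theorem step {C₀ C₁ δ : ℝ} (hδ : 0 < δ) (hC₁ : 0 < C₁) (hC₀ : 0 < C₀)
    (hC : ∀ (γ : E d → ℂ) (M : ℝ) (e : E d → ℝ),
      ContDiffOn ℝ 1 γ (B d) → (∀ z ∈ B d, ‖γ z‖ ≤ M) → Measurable e → (∀ z ∈ B d, 0 ≤ e z) →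
      (∀ z ∈ B d, ∀ ξ, ‖db γ z ξ‖ ≤ e z * len z ξ) →
      ∃ H : E d → ℂ, DifferentiableOn ℂ H (B d) ∧ ∀ z ∈ B d,
        ENNReal.ofReal ‖γ z - H z‖ ≤
          ENNReal.ofReal C₀ * ∫⁻ w in B d, ENNReal.ofReal (e w * ker z w))
    {a : E d → ℝ} (ha : AW a) {r M : ℝ} {f G g h g1 h1 : E d → ℂ}
    (hr0 : 0 ≤ r) (hr1 : r ≤ 1)
    (hf : DifferentiableOn ℂ f (B d)) (hG : DifferentiableOn ℂ G (B d))
    (hf1 : ∀ z ∈ B d, ‖f z‖ ≤ 1) (hG1 : ∀ z ∈ B d, ‖G z‖ ≤ 1)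
    (hδfG : ∀ z ∈ B d, δ ≤ ‖f z‖ + ‖G z‖)
    (hg : ContDiffOn ℝ 1 g (B d)) (hh : ContDiffOn ℝ 1 h (B d))
    (hgh : ∀ z ∈ B d, ‖g z‖ ≤ C₁ ∧ ‖h z‖ ≤ C₁ ∧ f (r • z) * g z + G (r • z) * h z = 1 ∧
      ∀ ξ, ‖db g z ξ‖ ≤ C₁ * a z ^ 2 * len z ξ ∧ ‖db h z ξ‖ ≤ C₁ * a z ^ 2 * len z ξ)
    (hg1 : DifferentiableOn ℂ g1 (B d)) (hh1 : DifferentiableOn ℂ h1 (B d))
    (hs : ∀ z ∈ B d, ‖g1 z‖ ≤ M ∧ ‖h1 z‖ ≤ M ∧ f (r • z) * g1 z + G (r • z) * h1 z = 1) :
    ∃ u v : E d → ℂ, DifferentiableOn ℂ u (B d) ∧ DifferentiableOn ℂ v (B d) ∧ ∀ z ∈ B d,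
      f (r • z) * u z + G (r • z) * v z = 1 ∧
      ENNReal.ofReal ‖u z‖ ≤ ENNReal.ofReal (C₁ + C₀ * (2 / δ * C₁)) *
        (1 + ∫⁻ w in B d, ENNReal.ofReal (a w ^ 2 * ker z w)) ∧
      ENNReal.ofReal ‖v z‖ ≤ ENNReal.ofReal (C₁ + C₀ * (2 / δ * C₁)) *
        (1 + ∫⁻ w in B d, ENNReal.ofReal (a w ^ 2 * ker z w)) := by
  have hmem : ∀ z ∈ B d, r • z ∈ B d := fun z hz => smul_mem_B hz hr0 hr1
  have hda : ∀ {F : E d → ℂ}, ContDiffOn ℝ 1 F (B d) → ∀ z ∈ B d, DifferentiableAt ℝ F z :=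
    fun hF z hz => (hF.differentiableOn (by norm_num)).differentiableAt (B_open.mem_nhds hz)
  have hFd : ∀ z ∈ B d, DifferentiableAt ℂ (fun w => f (r • w)) z := fun z hz =>
    (dil_hasFDerivAt (da_hol hf (hmem z hz))).differentiableAt
  have hGd : ∀ z ∈ B d, DifferentiableAt ℂ (fun w => G (r • w)) z := fun z hz =>
    (dil_hasFDerivAt (da_hol hG (hmem z hz))).differentiableAt
  have hFr := cd_dil (cd_hol hf) hr0 hr1
  have hGr := cd_dil (cd_hol hG) hr0 hr1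
  set γ : E d → ℂ := fun z => g z * h1 z - h z * g1 z with hγ
  have hγc : ContDiffOn ℝ 1 γ (B d) := (hg.mul (cd_hol hh1)).sub (hh.mul (cd_hol hg1))
  have hγb : ∀ z ∈ B d, ‖γ z‖ ≤ C₁ * M + C₁ * M := by
    intro z hz
    refine (norm_sub_le _ _).trans ?_
    rw [norm_mul, norm_mul]
    exact add_le_add (mul_le_mul (hgh z hz).1 (hs z hz).2.1 (norm_nonneg _) hC₁.le)
      (mul_le_mul (hgh z hz).2.1 (hs z hz).1 (norm_nonneg _) hC₁.le)
  -- the equation for the `∂̄`-derivatives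
  have hz0 : ∀ z ∈ B d, ∀ ξ, f (r • z) * db g z ξ + G (r • z) * db h z ξ = 0 := by
    intro z hz ξ
    have e1 : (fun w => f (r • w) * g w + G (r • w) * h w) =ᶠ[𝓝 z] fun _ => (1 : ℂ) := by
      filter_upwards [B_open.mem_nhds hz] with w hw
      exact (hgh w hw).2.2.1
    have e2 := db_congr e1 ξ
    have e3 : db (fun _ : E d => (1 : ℂ)) z ξ = 0 := db_hol (differentiableAt_const _) ξ
    have dF := hda hFr z hz
    have dG := hda hGr z hz
    have dg := hda hg z hz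
    have dh := hda hh z hz
    rw [e3, db_add (dF.fun_mul dg) (dG.fun_mul dh), db_mul dF dg, db_mul dG dh,
      db_hol (hFd z hz), db_hol (hGd z hz)] at e2
    linear_combination e2
  have hγd : ∀ z ∈ B d, ∀ ξ, ‖db γ z ξ‖ ≤
      (Set.piecewise (B d) (fun w => (2 / δ * C₁) * a w ^ 2) (fun _ => 0)) z * len z ξ := by
    intro z hz ξ
    rw [Set.piecewise_eq_of_mem _ _ _ hz]
    have e1 : db γ z ξ = h1 z * db g z ξ - g1 z * db h z ξ := by
      have dg := hda hg z hz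
      have dh := hda hh z hz
      have dg1 := hda (cd_hol hg1) z hz
      have dh1 := hda (cd_hol hh1) z hz
      rw [hγ, db_sub (dg.fun_mul dh1) (dh.fun_mul dg1), db_mul dg dh1, db_mul dh dg1,
        db_hol (da_hol hg1 hz), db_hol (da_hol hh1 hz)]
      ring
    have e2 := hz0 z hz ξ
    have e3 := (hs z hz).2.2
    have hX : 0 ≤ C₁ * a z ^ 2 * len z ξ := by
      have := len_nonneg z ξ
      positivity
    have fin : ∀ q : ℂ, δ / 2 ≤ ‖q‖ → ‖q * db γ z ξ‖ ≤ C₁ * a z ^ 2 * len z ξ →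
        ‖db γ z ξ‖ ≤ 2 / δ * C₁ * a z ^ 2 * len z ξ := by
      intro q hq hb
      rw [norm_mul] at hb
      have h5 : δ / 2 * ‖db γ z ξ‖ ≤ C₁ * a z ^ 2 * len z ξ :=
        (mul_le_mul_of_nonneg_right hq (norm_nonneg _)).trans hb
      have h6 : ‖db γ z ξ‖ = 2 / δ * (δ / 2 * ‖db γ z ξ‖) := by
        field_simp
      rw [h6]
      calc 2 / δ * (δ / 2 * ‖db γ z ξ‖) ≤ 2 / δ * (C₁ * a z ^ 2 * len z ξ) := by gcongr
        _ = _ := by ring
    rcases le_total (δ / 2) ‖G (r • z)‖ with hq | hq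
    · refine fin _ hq ?_
      have : G (r • z) * db γ z ξ = db g z ξ := by
        rw [e1]
        linear_combination db g z ξ * e3 - g1 z * e2
      rw [this]
      exact ((hgh z hz).2.2.2 ξ).1
    · have hq' : δ / 2 ≤ ‖f (r • z)‖ := by
        have := hδfG _ (hmem z hz)
        linarith
      refine fin _ hq' ?_
      have : f (r • z) * db γ z ξ = -db h z ξ := by
        rw [e1]
        linear_combination (-db h z ξ) * e3 + h1 z * e2
      rw [this, norm_neg]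
      exact ((hgh z hz).2.2.2 ξ).2
  obtain ⟨H, hH, hHb⟩ := hC γ _ _ hγc hγb (meas_e ha (2 / δ * C₁)) (fun z hz => by
    rw [Set.piecewise_eq_of_mem _ _ _ hz]
    positivity) hγd
  have hconv : ∀ z : E d, ∫⁻ w in B d, ENNReal.ofReal
      ((Set.piecewise (B d) (fun w => (2 / δ * C₁) * a w ^ 2) (fun _ => 0)) w * ker z w) =
      ENNReal.ofReal (2 / δ * C₁) * ∫⁻ w in B d, ENNReal.ofReal (a w ^ 2 * ker z w) := by
    intro z
    rw [← lintegral_const_mul' _ _ ENNReal.ofReal_ne_top]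
    refine setLIntegral_congr_fun B_meas fun w hw => ?_
    rw [Set.piecewise_eq_of_mem _ _ _ hw, ← ENNReal.ofReal_mul (by positivity), mul_assoc]
  have hfin : ∀ z ∈ B d, ∀ c q : ℂ, ‖c‖ ≤ C₁ → ‖q‖ ≤ 1 →
      ENNReal.ofReal ‖c + q * (H z - γ z)‖ ≤ ENNReal.ofReal (C₁ + C₀ * (2 / δ * C₁)) *
        (1 + ∫⁻ w in B d, ENNReal.ofReal (a w ^ 2 * ker z w)) := by
    intro z hz c q hc hq
    have h3 : ‖c + q * (H z - γ z)‖ ≤ C₁ + ‖γ z - H z‖ := by
      have h5 : ‖q * (H z - γ z)‖ ≤ 1 * ‖γ z - H z‖ := by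
        rw [norm_mul, norm_sub_rev (γ z)]
        exact mul_le_mul_of_nonneg_right hq (norm_nonneg _)
      have h6 := norm_add_le c (q * (H z - γ z))
      linarith
    refine (ENNReal.ofReal_le_ofReal h3).trans ?_
    rw [ENNReal.ofReal_add hC₁.le (norm_nonneg _), mul_add, mul_one]
    refine add_le_add (ENNReal.ofReal_le_ofReal ?_) ?_
    · have : 0 ≤ C₀ * (2 / δ * C₁) := by positivity
      linarith
    · refine (hHb z hz).trans ?_
      rw [hconv z, ← mul_assoc, ← ENNReal.ofReal_mul hC₀.le]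
      gcongr
      linarith
  refine ⟨fun z => g1 z + G (r • z) * H z, fun z => h1 z - f (r • z) * H z, ?_, ?_, ?_⟩
  · refine hg1.add (DifferentiableOn.mul ?_ hH)
    intro z hz
    exact (hGd z hz).differentiableWithinAt
  · refine hh1.sub (DifferentiableOn.mul ?_ hH)
    intro z hz
    exact (hFd z hz).differentiableWithinAt
  · intro z hz
    have e3 := (hs z hz).2.2
    have e4 := (hgh z hz).2.2.1
    refine ⟨?_, ?_, ?_⟩
    · linear_combination e3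
    · have h3 : g1 z + G (r • z) * H z = g z + G (r • z) * (H z - γ z) := by
        simp only [hγ]
        linear_combination (g z) * e3 - (g1 z) * e4
      show ENNReal.ofReal ‖g1 z + G (r • z) * H z‖ ≤ _
      rw [h3]
      exact hfin z hz _ _ (hgh z hz).1 (hG1 _ (hmem z hz))
    · have h3 : h1 z - f (r • z) * H z = h z + (-f (r • z)) * (H z - γ z) := by
        simp only [hγ]
        linear_combination (h z) * e3 - (h1 z) * e4
      show ENNReal.ofReal ‖h1 z - f (r • z) * H z‖ ≤ _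
      rw [h3]
      exact hfin z hz _ _ (hgh z hz).2.1 (by rw [norm_neg]; exact hf1 _ (hmem z hz))

/-- **AI.** -/
theorem AI_of (d : ℕ) (hM : SM d) (hC : Cmain d) (h8 : C8 d) (hD1 : D1 d) (hD4 : D4 d) : AI d := by
  intro δ hδ
  obtain ⟨C₁, hC₁, hM⟩ := hM δ hδ
  obtain ⟨C₀, hC₀, hC⟩ := hC
  refine ⟨C₁ + C₀ * (2 / δ * C₁), by positivity, ?_⟩
  intro f G a hf hG hf1 hG1 hδfG ha hfa
  have hk := hM f G a hf hG hf1 hG1 hδfG ha hfa
  refine hD4 (fun z => ENNReal.ofReal (C₁ + C₀ * (2 / δ * C₁)) *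
      (1 + ∫⁻ w in B d, ENNReal.ofReal (a w ^ 2 * ker z w))) ?_ f G hf hG ?_
  · intro r hr0 hr1
    obtain ⟨D, hD⟩ := h8 r hr0 hr1
    refine ⟨(C₁ + C₀ * (2 / δ * C₁)) * (1 + max D 0), fun z hz => ?_⟩
    have h9 : ENNReal.ofReal (1 + max D 0) = 1 + ENNReal.ofReal (max D 0) := by
      rw [ENNReal.ofReal_add (by norm_num) (by positivity), ENNReal.ofReal_one]
    rw [ENNReal.ofReal_mul (by positivity), h9]
    have h4 : ∫⁻ w in B d, ENNReal.ofReal (a w ^ 2 * ker z w) ≤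
        ∫⁻ w in B d, ENNReal.ofReal (ker z w) := by
      refine setLIntegral_mono' B_meas fun w hw => ENNReal.ofReal_le_ofReal ?_
      have h5 := ha.a2 w hw
      have h6 : a w ^ 2 ≤ 1 := pow_le_one₀ h5.1.le h5.2
      have h7 := ker_nonneg z w
      nlinarith
    have h10 : ∫⁻ w in B d, ENNReal.ofReal (a w ^ 2 * ker z w) ≤ ENNReal.ofReal (max D 0) :=
      h4.trans ((hD z hz).trans (ENNReal.ofReal_le_ofReal (le_max_left _ _)))
    show ENNReal.ofReal (C₁ + C₀ * (2 / δ * C₁)) *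
      (1 + ∫⁻ w in B d, ENNReal.ofReal (a w ^ 2 * ker z w)) ≤ _
    gcongr
  · intro k
    obtain ⟨g, h, hg, hh, hgh⟩ := hk k
    obtain ⟨g1, h1, M, hg1, hh1, hs⟩ := hD1 δ (rad k) f G hδ (rad_nonneg k) (rad_lt_one k) hf hG
      hf1 hG1 hδfG
    exact step hδ hC₁ hC₀ hC ha (rad_nonneg k) (rad_lt_one k).le hf hG hf1 hG1 hδfG hg hh hgh
      hg1 hh1 hs

end Pool.Agent.N727.RL
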